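import Mathlib
import Pool.Agent.H504.TSFinal
import Pool.Agent.Results.MP_17aaef_lc.UlamBanach

/-!
# No small sigma-algebra need contain all analytic sets

It is not provable in ZFC that some countably generated sigma-algebra of subsets of the unit
interval contains all analytic sets: the combinatorial statement `Phi ℕ` implies in ZFC that there
is none, and `Phi ℕ` holds in the extension by a ccc forcing notion. The same is proved for
sigma-algebras generated by families indexed by an arbitrary set `Λ` instead of `ℕ`. The forcing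
notion is a product of many copies of the notion adding a generic analytic set by finite
approximations with tags: for each of `ω₁` ground model reals `r x` a condition gives to finitely
many nodes of a graph on `ℕ` tags in `(x × ω) ∪ {⊤}` decreasing along the edges, and `r x` is in
the generic analytic set iff the tag of `0` is `⊤`. Given the name of a family indexed by `Λ`, fix
a copy which it does not mention. The names of sets of reals `r x` such that, for large `x`, the
membership of `r x` is forced by the same conditions after changing the tags of `r x` in this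
copy above a fixed countable level form a sigma-algebra; it contains the given family
and it does not contain the generic analytic set of the copy.
-/

set_option autoImplicit false

open Cardinal MeasurableSpace Set MeasureTheory

namespace Pool.Agent.Results.MP_4137ca_lc.Independence

open Pool.Agent.H504.TS (Phi ForcedPhi Ill PreSet)
open Pool.Agent.Helper292.ForceCH (Om OmegaOnePreserved CHHolds)
open Pool.Agent.Results.MP_17aaef_lc.UlamBanach (Q1 DenumerableBase InSigma base_of_q1)

/-- The unit interval. -/
abbrev I : Type := Set.Icc (0 : ℝ) 1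

/-- The sigma-algebra generated by some family `A l`, `l ∈ Λ`, of subsets of the unit interval
contains all analytic subsets of the unit interval. For `Λ = ℕ` this is the statement of Q1. -/
def Generated (Λ : Type) : Prop :=
  ∃ A : Λ → Set I, ∀ S : Set I, AnalyticSet S → MeasurableSet[generateFrom (range A)] S

/-- The continuum hypothesis: some family of subsets of `ℕ` indexed by `ω₁` contains every
subset of `ℕ`. -/
def CH : Prop := ∃ f : Om → Set ℕ, ∀ x : Set ℕ, ∃ a : Om, ∀ n, n ∈ x ↔ n ∈ f a

theorem continuum_of_CH (h : CH) : (𝔠 : Cardinal.{0}) = ℵ₁ := by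
  obtain ⟨f, hf⟩ := h
  have hsurj : Function.Surjective f := by
    intro x
    obtain ⟨a, ha⟩ := hf x
    exact ⟨a, (Set.ext ha).symm⟩
  have h1 : (𝔠 : Cardinal.{0}) ≤ ℵ₁ := by
    have h2 := mk_le_of_surjective hsurj
    rwa [mk_set, mk_nat, two_power_aleph0, mk_ord_toType] at h2
  exact le_antisymm h1 aleph_one_le_continuum

theorem mk_I : #I = 𝔠 := mk_Icc_real zero_lt_one

/-- there are at most continuum many analytic sets -/
theorem mk_analytic : #{S : Set I | AnalyticSet S} ≤ 𝔠 := by
  classical
  let d := TopologicalSpace.denseSeq (ℕ → ℕ)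
  let φ : (ℕ → I) → Set I := fun g =>
    if h : ∃ f : (ℕ → ℕ) → I, Continuous f ∧ ∀ n, f (d n) = g n then range h.choose else ∅
  have h1 : {S : Set I | AnalyticSet S} ⊆ range (fun o : Option (ℕ → I) => o.elim ∅ φ) := by
    intro S hS
    have hS' : AnalyticSet S := hS
    rw [AnalyticSet] at hS'
    rcases hS' with rfl | ⟨f, hf, rfl⟩
    · exact ⟨none, rfl⟩
    · refine ⟨some fun n => f (d n), ?_⟩
      have h : ∃ f' : (ℕ → ℕ) → I, Continuous f' ∧ ∀ n, f' (d n) = f (d n) := ⟨f, hf, fun _ => rfl⟩
      have h2 : h.choose = f := by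
        refine h.choose_spec.1.ext_on (TopologicalSpace.denseRange_denseSeq (ℕ → ℕ)) hf ?_
        rintro _ ⟨n, rfl⟩
        exact h.choose_spec.2 n
      show (if h : ∃ f' : (ℕ → ℕ) → I, Continuous f' ∧ ∀ n, f' (d n) = f (d n) then
        range h.choose else ∅) = range f
      rw [dif_pos h, h2]
  refine (mk_le_mk_of_subset h1).trans (mk_range_le.trans ?_)
  have h2 : #(ℕ → I) = 𝔠 := by
    rw [← power_def, mk_I, mk_nat, continuum_power_aleph0]
  rw [mk_option, h2]
  exact (add_one_eq aleph0_le_continuum).le

theorem generated_of_CH (h : CH) : Generated ℕ := by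
  have hQ : Q1 I := (Pool.Agent.Results.MP_17aaef_lc.UlamBanach.result I mk_I).2.2.1
    (continuum_of_CH h)
  obtain ⟨B, hB⟩ := base_of_q1 mk_I hQ _ mk_analytic
  exact ⟨B, fun S hS => hB S hS⟩

/-- the bits of a real -/
noncomputable def bits (z : Set ℕ) : ℕ → Bool := by
  classical
  exact fun n => decide (n ∈ z)

theorem bits_eq {z : Set ℕ} {n : ℕ} {b : Bool} : bits z n = b ↔ (n ∈ z ↔ b = true) := by
  unfold bits
  by_cases h : n ∈ z <;> cases b <;> simp [h]

/-- the pairs of a real and a set of nodes witnessing that the real is in the set coded by `T` -/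
def Wit (T : ℕ → ℕ → List Bool → Prop) : Set ((ℕ → Bool) × (ℕ → Bool)) :=
  {w | w.2 0 = true ∧ ∀ m, w.2 m = true →
    ∃ (n : ℕ) (u : List Bool), w.2 n = true ∧ T m n u ∧ ∀ k b, u[k]? = some b → w.1 k = b}

theorem measurableSet_wit (T : ℕ → ℕ → List Bool → Prop) : MeasurableSet (Wit T) := by
  classical
  have e1 : ∀ (k : ℕ) (b : Bool), MeasurableSet {w : (ℕ → Bool) × (ℕ → Bool) | w.1 k = b} :=
    fun k b => (measurableSet_singleton b).preimage ((measurable_pi_apply k).comp measurable_fst)
  have e2 : ∀ (k : ℕ) (b : Bool), MeasurableSet {w : (ℕ → Bool) × (ℕ → Bool) | w.2 k = b} :=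
    fun k b => (measurableSet_singleton b).preimage ((measurable_pi_apply k).comp measurable_snd)
  have e3 : ∀ u : List Bool, MeasurableSet
      {w : (ℕ → Bool) × (ℕ → Bool) | ∀ k b, u[k]? = some b → w.1 k = b} := by
    intro u
    have h : {w : (ℕ → Bool) × (ℕ → Bool) | ∀ k b, u[k]? = some b → w.1 k = b} =
        ⋂ (k : ℕ) (b : Bool) (_ : u[k]? = some b), {w | w.1 k = b} := by
      ext w
      simp
    rw [h]
    exact MeasurableSet.iInter fun k => MeasurableSet.iInter fun b => MeasurableSet.iInter fun _ =>
      e1 k b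
  have h : Wit T = {w | w.2 0 = true} ∩ ⋂ m : ℕ, ({w | w.2 m = false} ∪
      ⋃ (n : ℕ) (u : List Bool) (_ : T m n u), ({w | w.2 n = true} ∩
        {w : (ℕ → Bool) × (ℕ → Bool) | ∀ k b, u[k]? = some b → w.1 k = b})) := by
    ext w
    simp only [Wit, Set.mem_ofPred_eq, mem_inter_iff, mem_iInter, mem_union, mem_iUnion]
    refine and_congr_right fun _ => forall_congr' fun m => ?_
    constructor
    · intro h1
      cases h2 : w.2 m
      · exact Or.inl rfl
      · obtain ⟨n, u, h3, h4, h5⟩ := h1 h2
        exact Or.inr ⟨n, u, h4, h3, h5⟩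
    · rintro (h1 | ⟨n, u, h4, h3, h5⟩) h2
      · rw [h1] at h2
        exact absurd h2 (by simp)
      · exact ⟨n, u, h3, h4, h5⟩
  rw [h]
  refine (e2 0 true).inter (MeasurableSet.iInter fun m => (e2 m false).union
    (MeasurableSet.iUnion fun n => MeasurableSet.iUnion fun u => MeasurableSet.iUnion fun _ =>
      (e2 n true).inter (e3 u)))

theorem mem_image_wit (T : ℕ → ℕ → List Bool → Prop) (z : Set ℕ) :
    (∃ Y, (bits z, Y) ∈ Wit T) ↔ Ill T z := by
  have hpre : ∀ u : List Bool, (∀ k b, u[k]? = some b → bits z k = b) ↔ PreSet u z := by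
    intro u
    exact forall_congr' fun k => forall_congr' fun b => by rw [bits_eq]
  constructor
  · rintro ⟨Y, h1, h2⟩
    refine ⟨{n | Y n = true}, h1, fun m hm => ?_⟩
    obtain ⟨n, u, h3, h4, h5⟩ := h2 m hm
    exact ⟨n, u, h3, h4, (hpre u).1 h5⟩
  · rintro ⟨Y, h1, h2⟩
    refine ⟨bits Y, bits_eq.2 (by simp [h1]), fun m hm => ?_⟩
    obtain ⟨n, u, h3, h4, h5⟩ := h2 m (by simpa using (bits_eq.1 hm))
    exact ⟨n, u, bits_eq.2 (by simp [h3]), h4, (hpre u).2 h5⟩

theorem not_generated_of_phi {Λ : Type} [Nonempty Λ] (h : Phi Λ) : ¬ Generated Λ := by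
  rintro ⟨A, hA⟩
  obtain ⟨K, x, _, hB⟩ := h
  have hI : ¬ Countable I := by
    intro hc
    have h1 : #I ≤ ℵ₀ := mk_le_aleph0
    rw [mk_I] at h1
    exact absurd h1 (not_le.2 aleph0_lt_continuum)
  have hCard : #(ℕ → Bool) = 𝔠 := by simp
  have hC : ¬ Countable (ℕ → Bool) := by
    intro hc
    have h1 : #(ℕ → Bool) ≤ ℵ₀ := mk_le_aleph0
    rw [hCard] at h1
    exact absurd h1 (not_le.2 aleph0_lt_continuum)
  have j : (ℕ → Bool) ≃ᵐ I := PolishSpace.measurableEquivOfNotCountable hC hI
  let φ : K → I := fun a => j (bits (x a))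
  obtain ⟨T, S, h1, h2, h3, h4⟩ := hB fun l => φ ⁻¹' A l
  have hana : AnalyticSet ((fun w : (ℕ → Bool) × (ℕ → Bool) => j w.1) '' Wit T) :=
    (measurableSet_wit T).analyticSet_image (j.measurable.comp measurable_fst)
  refine h4 (φ ⁻¹' ((fun w : (ℕ → Bool) × (ℕ → Bool) => j w.1) '' Wit T)) (fun a => ?_) ?_
  · rw [← mem_image_wit]
    constructor
    · rintro ⟨⟨z, Y⟩, hw, hz⟩
      have h5 : z = bits (x a) := j.injective hz
      rw [h5] at hw
      exact ⟨Y, hw⟩
    · rintro ⟨Y, hY⟩
      exact ⟨(bits (x a), Y), hY, rfl⟩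
  · have h5 := hA _ hana
    have hφ : @Measurable K I (generateFrom (range fun l => φ ⁻¹' A l)) (generateFrom (range A)) φ := by
      apply @measurable_generateFrom K I (generateFrom (range fun l => φ ⁻¹' A l)) (range A) φ
      rintro _ ⟨l, rfl⟩
      exact measurableSet_generateFrom ⟨l, rfl⟩
    have h6 := hφ h5
    let m : MeasurableSpace K :=
      { MeasurableSet' := fun T => T ∈ S
        measurableSet_empty := by
          let l0 : Λ := Classical.arbitrary Λ
          have h7 : (φ ⁻¹' A l0)ᶜ ∈ S := h2 _ _ (h1 l0) fun b => Iff.rfl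
          have h8 : (univ : Set K) ∈ S := by
            refine h3 (fun n => if n = 0 then φ ⁻¹' A l0 else (φ ⁻¹' A l0)ᶜ) _ (fun n => ?_)
              fun b => ?_
            · split_ifs
              · exact h1 l0
              · exact h7
            · simp only [mem_univ, true_iff]
              by_cases hb : b ∈ φ ⁻¹' A l0
              · exact ⟨0, by simpa using hb⟩
              · exact ⟨1, by simpa using hb⟩
          exact h2 _ _ h8 fun b => by simp
        measurableSet_compl := fun T hT => h2 _ _ hT fun b => Iff.rfl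
        measurableSet_iUnion := fun T hT => h3 T _ hT fun b => mem_iUnion }
    have h9 : generateFrom (range fun l => φ ⁻¹' A l) ≤ m := by
      refine generateFrom_le ?_
      rintro _ ⟨l, rfl⟩
      exact h1 l
    exact h9 _ h6

/-- Q1 is independent of ZFC. (1) The continuum hypothesis implies that some countably generated
sigma-algebra contains all analytic sets, and it is forced, with `ω₁` preserved, by some forcing
notion. (2) For every nonempty set `Λ` (in particular `ℕ`), `Phi Λ` implies that no sigma-algebra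
generated by a family indexed by `Λ` contains all analytic sets. (3) For every `Λ`, `Phi Λ` is
forced by some forcing notion all of whose antichains are countable. -/
theorem result :
    (CH → Generated ℕ) ∧
    (∃ (P : Type) (_ : Preorder P), Nonempty P ∧
      ∀ p : P, p ∈ OmegaOnePreserved P ∧ p ∈ CHHolds P) ∧
    (∀ Λ : Type, Nonempty Λ → Phi Λ → ¬ Generated Λ) ∧
    ∀ Λ : Type, ∃ (K P : Type) (_ : Preorder P), Nonempty P ∧
      (∀ A : Set P, (∀ p ∈ A, ∀ q ∈ A, (∃ s, s ≤ p ∧ s ≤ q) → p = q) → A.Countable) ∧
      ∀ p : P, p ∈ ForcedPhi P Λ K := by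
  refine ⟨generated_of_CH, ?_, fun Λ _ h => not_generated_of_phi h,
    Pool.Agent.H504.TS.main_forced⟩
  obtain ⟨P, hP, h1, h2⟩ := Pool.Agent.Helper292.ForceCH.exists_forcing
  exact ⟨P, hP, h1, fun p => ⟨(h2 p).1, (h2 p).2.2⟩⟩

end Pool.Agent.Results.MP_4137ca_lc.Independence
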